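import Mathlib
import Pool.Agent.X5.ConeFix

set_option autoImplicit false

/-!
# MP_8dfbdc_an: a real analytic nonexpansive map whose fixed point set is not a `C¹` manifold

On `ℝ ^ 3` with the polyhedral norm `max (24 |x|, 24 |y|, |z|)` the real analytic map
`(x, y, z) ↦ (x, y, z - (z r² - x³) / (3 (1 + r²)))`, `r² = x² + y² + z²`, is nonexpansive. Its
fixed point set is the cone `z r² = x³`, the graph of a nonlinear homogeneous function of `(x, y)`,
and it is not a `C¹` submanifold near its vertex `0`.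
-/

namespace Pool.Agent.Results.MP_8dfbdc_an.ConicalFixedPointSet

open Set Pool.Agent.X5

/-- The seminorm `N` on `ℝ ^ n` is a polyhedral norm: it is definite, and it is the maximum of the
absolute values of finitely many linear functionals. -/
def IsPolyhedralNorm {n : ℕ} (N : Seminorm ℝ (Fin n → ℝ)) : Prop :=
  (∀ x, N x = 0 → x = 0) ∧
    ∃ (m : ℕ) (φ : Fin m → ((Fin n → ℝ) →ₗ[ℝ] ℝ)), ∀ x,
      IsGreatest (Set.range fun i => |φ i x|) (N x)

/-- `f` is nonexpansive for the norm `N`. -/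
def IsNonexpansive {n : ℕ} (N : Seminorm ℝ (Fin n → ℝ)) (f : (Fin n → ℝ) → (Fin n → ℝ)) : Prop :=
  ∀ x y, N (f x - f y) ≤ N (x - y)

/-- Near the point `p` the set `M` is a `C¹` embedded submanifold of `ℝ ^ n`: there are an open
neighbourhood `U` of `p` (the source of `ψ`), `k ≥ 0` and a `C¹` diffeomorphism `ψ` of `U` onto an open
subset of `ℝ ^ n` with `ψ (U ∩ M) = ψ (U) ∩ (ℝ ^ k × {0})`. -/
def IsC1SubmanifoldNear {n : ℕ} (M : Set (Fin n → ℝ)) (p : Fin n → ℝ) : Prop :=
  ∃ (ψ : OpenPartialHomeomorph (Fin n → ℝ) (Fin n → ℝ)) (k : ℕ), p ∈ ψ.source ∧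
    ContDiffOn ℝ 1 ψ ψ.source ∧ ContDiffOn ℝ 1 ψ.symm ψ.target ∧
      ψ '' (ψ.source ∩ M) = ψ.target ∩ {v | ∀ i : Fin n, k ≤ (i : ℕ) → v i = 0}

/-- **Q1 is false**: there are a polyhedral norm on some `ℝ ^ n` and a nonexpansive real analytic map
`f` with a fixed point `p` near which the fixed point set of `f` is not a `C¹` submanifold. -/
theorem result : ∃ (n : ℕ) (N : Seminorm ℝ (Fin n → ℝ)) (f : (Fin n → ℝ) → (Fin n → ℝ))
    (p : Fin n → ℝ), IsPolyhedralNorm N ∧ IsNonexpansive N f ∧ AnalyticOnNhd ℝ f univ ∧ f p = p ∧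
      ¬ IsC1SubmanifoldNear {x | f x = x} p := by
  refine ⟨3, ConeFix.N, ConeFix.f, 0, ⟨ConeFix.N_definite, 3, ConeFix.φ, fun x => ⟨?_, ?_⟩⟩,
    ConeFix.nonexpansive, ConeFix.analytic_f, ?_, ?_⟩
  · rw [ConeFix.N_apply]
    rcases max_choice |24 * x 0| (max |24 * x 1| |x 2|) with h | h
    · rw [h]
      exact ⟨0, by simp [ConeFix.φ]⟩
    · rw [h]
      rcases max_choice |24 * x 1| |x 2| with h | h
      · rw [h]
        exact ⟨1, by simp [ConeFix.φ]⟩
      · rw [h]
        exact ⟨2, by simp [ConeFix.φ]⟩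
  · rintro _ ⟨i, rfl⟩
    rw [ConeFix.N_apply]
    fin_cases i
    · simp [ConeFix.φ]
    · simp [ConeFix.φ]
    · simp [ConeFix.φ]
  · have h : (0 : Fin 3 → ℝ) ∈ {p | ConeFix.f p = p} := by
      rw [ConeFix.fix_f]
      exact ConeFix.zero_mem_M
    exact h
  · rw [ConeFix.fix_f]
    rintro ⟨ψ, k, hp, h1, h2, h3⟩
    obtain ⟨a, b, ha, hb, hab⟩ := ConeFix.M_not_add
    let L : Submodule ℝ (Fin 3 → ℝ) :=
      { carrier := {v | ∀ i : Fin 3, k ≤ (i : ℕ) → v i = 0}
        add_mem' := fun {u v} hu hv i hi => by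
          have e1 := hu i hi
          have e2 := hv i hi
          simp [e1, e2]
        zero_mem' := fun i _ => rfl
        smul_mem' := fun c v hv i hi => by
          have e1 := hv i hi
          simp [e1] }
    have hL : IsClosed (L : Set (Fin 3 → ℝ)) := L.closed_of_finiteDimensional
    exact hab (ConeFix.add_mem_of_chart ConeFix.M_closed (fun c hc t => ConeFix.M_smul hc t)
      ConeFix.zero_mem_M ψ hp h1 h2 L hL h3 a b ha hb)

end Pool.Agent.Results.MP_8dfbdc_an.ConicalFixedPointSet
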